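import Pool.Agent.Y105.RS.StmC

/-! # Project RS: comparison of the Dirichlet forms on the Hamming graph

`nm`, `nm_add`, `sum_comp_perm` are copied from `Pool/Agent/Y952/RS/Cmp.lean` (helper952). -/

set_option autoImplicit false

open Finset Equiv

namespace Pool.Agent.Y945.RS

open Pool.Agent.Y105.RS

/-- Euclidean norm -/
noncomputable def nm {ι : Type} [Fintype ι] (g : ι → ℝ) : ℝ := Real.sqrt (∑ i, g i ^ 2)

theorem nm_add {ι : Type} [Fintype ι] (g h : ι → ℝ) : nm (fun i => g i + h i) ≤ nm g + nm h := by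
  have h1 := norm_add_le (WithLp.toLp 2 g : EuclideanSpace ℝ ι) (WithLp.toLp 2 h)
  simp only [EuclideanSpace.norm_eq, Real.norm_eq_abs, sq_abs] at h1
  exact h1

theorem sum_comp_perm {V : Type} [Fintype V] [DecidableEq V] {m : ℕ} (σ : Perm V)
    (g : (V → Fin m) → ℝ) : ∑ ξ : V → Fin m, g (ξ ∘ σ) = ∑ ξ : V → Fin m, g ξ := by
  have := (Equiv.arrowCongr σ.symm (Equiv.refl (Fin m))).sum_comp g
  simpa [Equiv.arrowCongr] using this

section general

variable {V : Type} [Fintype V] [DecidableEq V] {m : ℕ} (f : (V → Fin m) → ℝ)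

/-- the Dirichlet form of one transposition -/
noncomputable def WW (y z : V) : ℝ := ∑ ξ : V → Fin m, (f ξ - f (ξ ∘ swap y z)) ^ 2

theorem WW_nonneg (y z : V) : 0 ≤ WW f y z := sum_nonneg fun _ _ => sq_nonneg _

theorem WW_self (y : V) : WW f y y = 0 := by
  simp [WW]

/-- its square root -/
noncomputable def DN (y z : V) : ℝ := Real.sqrt (WW f y z)

theorem DN_nonneg (y z : V) : 0 ≤ DN f y z := Real.sqrt_nonneg _

theorem DN_sq (y z : V) : DN f y z ^ 2 = WW f y z := Real.sq_sqrt (WW_nonneg f y z)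

theorem DN_self (y : V) : DN f y y = 0 := by
  simp [DN, WW_self]

theorem DN_tri (a b c : V) : DN f a c ≤ DN f a b + 2 * DN f b c := by
  have n1 := DN_nonneg f a b
  have n2 := DN_nonneg f b c
  by_cases h1 : a = c
  · subst h1
    rw [DN_self]
    linarith
  by_cases h2 : a = b
  · rw [← h2, DN_self]
    rw [← h2] at n2
    linarith
  set T1 : (V → Fin m) → ℝ := fun ξ => f ξ - f (ξ ∘ swap b c) with hT1
  set T2 : (V → Fin m) → ℝ := fun ξ => f (ξ ∘ swap b c) - f ((ξ ∘ swap b c) ∘ swap a b) with hT2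
  set T3 : (V → Fin m) → ℝ := fun ξ => f ((ξ ∘ swap b c) ∘ swap a b) -
    f (((ξ ∘ swap b c) ∘ swap a b) ∘ swap b c) with hT3
  have e1 : nm T1 = DN f b c := rfl
  have e2 : nm T2 = DN f a b := by
    rw [nm, DN, WW]
    congr 1
    exact sum_comp_perm (swap b c) (fun ξ => (f ξ - f (ξ ∘ swap a b)) ^ 2)
  have e3 : nm T3 = DN f b c := by
    rw [nm, DN, WW]
    congr 1
    exact sum_comp_perm (swap b c * swap a b) (fun ξ => (f ξ - f (ξ ∘ swap b c)) ^ 2)
  have e4 : DN f a c = nm (fun ξ => (T1 ξ + T2 ξ) + T3 ξ) := by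
    rw [nm, DN, WW]
    congr 1
    refine sum_congr rfl fun ξ _ => ?_
    have hs : swap b c * swap a b * swap b c = swap c a := swap_mul_swap_mul_swap h2 h1
    have : (((ξ ∘ swap b c) ∘ swap a b) ∘ swap b c) = ξ ∘ swap a c := by
      rw [swap_comm a c, ← hs]
      rfl
    simp only [hT1, hT2, hT3]
    rw [this]
    congr 1
    ring
  rw [e4]
  have h5 := nm_add (fun ξ => T1 ξ + T2 ξ) T3
  have h6 := nm_add T1 T2
  rw [e1, e2] at h6
  rw [e3] at h5
  linarith

end general

section hamming

variable {d k : ℕ}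

/-- the path from `y` to `z` -/
def pth (y z : Fin d → Fin k) (l : ℕ) : Fin d → Fin k := fun i => if (i : ℕ) < l then z i else y i

theorem pth_zero (y z : Fin d → Fin k) : pth y z 0 = y := by
  funext i; simp [pth]

theorem pth_full (y z : Fin d → Fin k) : pth y z d = z := by
  funext i; simp [pth]

theorem pth_succ (y z : Fin d → Fin k) (l : Fin d) :
    pth y z (l + 1) = Function.update (pth y z l) l (z l) := by
  funext i
  by_cases h : i = l
  · subst h
    simp [pth]
  · rw [Function.update_of_ne h]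
    unfold pth
    have h1 : (i : ℕ) ≠ l := fun h' => h (Fin.ext h')
    by_cases h2 : (i : ℕ) < l
    · rw [if_pos (by omega), if_pos h2]
    · rw [if_neg (by omega), if_neg h2]

variable {m : ℕ} (f : ((Fin d → Fin k) → Fin m) → ℝ)

theorem DN_path (y z : Fin d → Fin k) (n : ℕ) :
    DN f y (pth y z n) ≤ 2 * ∑ l ∈ range n, DN f (pth y z l) (pth y z (l + 1)) := by
  induction n with
  | zero => rw [pth_zero, DN_self]; simp
  | succ n ih =>
    rw [sum_range_succ]
    have := DN_tri f y (pth y z n) (pth y z (n + 1))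
    linarith

theorem WW_path (y z : Fin d → Fin k) :
    WW f y z ≤ 4 * d * ∑ l : Fin d, WW f (pth y z l) (Function.update (pth y z l) l (z l)) := by
  have h1 := DN_path f y z d
  rw [pth_full, ← Fin.sum_univ_eq_sum_range (fun l => DN f (pth y z l) (pth y z (l + 1))) d] at h1
  have h2 := DN_nonneg f y z
  have h3 : (∑ l : Fin d, DN f (pth y z l) (pth y z (l + 1))) ^ 2 ≤
      (univ : Finset (Fin d)).card * ∑ l : Fin d, DN f (pth y z l) (pth y z (l + 1)) ^ 2 :=
    sq_sum_le_card_mul_sum_sq
  rw [card_univ, Fintype.card_fin] at h3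
  have h4 : ∑ l : Fin d, DN f (pth y z l) (pth y z (l + 1)) ^ 2 =
      ∑ l : Fin d, WW f (pth y z l) (Function.update (pth y z l) l (z l)) := by
    refine sum_congr rfl fun l _ => ?_
    rw [DN_sq, pth_succ]
  rw [← DN_sq]
  calc DN f y z ^ 2 ≤ (2 * ∑ l : Fin d, DN f (pth y z l) (pth y z (l + 1))) ^ 2 :=
        pow_le_pow_left₀ h2 h1 2
    _ = 4 * (∑ l : Fin d, DN f (pth y z l) (pth y z (l + 1))) ^ 2 := by ring
    _ ≤ 4 * (d * ∑ l : Fin d, DN f (pth y z l) (pth y z (l + 1)) ^ 2) := by linarith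
    _ = _ := by rw [h4]; ring

/-- exchange of the first coordinates -/
def Phi (d k l : ℕ) : (Fin d → Fin k) × (Fin d → Fin k) ≃ (Fin d → Fin k) × (Fin d → Fin k) where
  toFun p := (fun i => if (i : ℕ) < l then p.2 i else p.1 i,
    fun i => if (i : ℕ) < l then p.1 i else p.2 i)
  invFun p := (fun i => if (i : ℕ) < l then p.2 i else p.1 i,
    fun i => if (i : ℕ) < l then p.1 i else p.2 i)
  left_inv p := by
    refine Prod.ext ?_ ?_ <;> funext i <;> by_cases h : (i : ℕ) < l <;> simp [h]
  right_inv p := by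
    refine Prod.ext ?_ ?_ <;> funext i <;> by_cases h : (i : ℕ) < l <;> simp [h]

theorem sum_coord (l : Fin d) (g : Fin k → ℝ) :
    ∑ v : Fin d → Fin k, g (v l) = (k : ℝ) ^ (d - 1) * ∑ a, g a := by
  rw [← Equiv.sum_comp (Equiv.funSplitAt l (Fin k)).symm, Fintype.sum_prod_type]
  have h1 : ∀ (a : Fin k) (r : {j // j ≠ l} → Fin k),
      (Equiv.funSplitAt l (Fin k)).symm (a, r) l = a := by
    intro a r
    simp
  simp only [h1, sum_const, card_univ, Fintype.card_fun, Fintype.card_fin, nsmul_eq_mul,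
    Fintype.card_subtype_compl, Fintype.card_unique]
  rw [mul_sum]
  refine sum_congr rfl fun a _ => ?_
  push_cast
  rfl

theorem sum_pth (l : Fin d) (G : (Fin d → Fin k) → (Fin d → Fin k) → ℝ) :
    ∑ y : Fin d → Fin k, ∑ z : Fin d → Fin k,
      G (pth y z l) (Function.update (pth y z l) l (z l)) =
    (k : ℝ) ^ (d - 1) * ∑ u : Fin d → Fin k, ∑ a : Fin k, G u (Function.update u l a) := by
  have h1 : ∑ y : Fin d → Fin k, ∑ z : Fin d → Fin k,
      G (pth y z l) (Function.update (pth y z l) l (z l)) =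
      ∑ u : Fin d → Fin k, ∑ v : Fin d → Fin k, G u (Function.update u l (v l)) := by
    rw [← Fintype.sum_prod_type' (fun (y z : Fin d → Fin k) =>
        G (pth y z l) (Function.update (pth y z l) l (z l))),
      ← Fintype.sum_prod_type' (fun (u v : Fin d → Fin k) => G u (Function.update u l (v l))),
      ← Equiv.sum_comp (Phi d k l)]
    refine sum_congr rfl fun p _ => ?_
    have h2 : (Phi d k l p).2 l = p.2 l := by simp [Phi]
    have h3 : pth (Phi d k l p).1 (Phi d k l p).2 l = p.1 := by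
      funext i
      show (if (i : ℕ) < (l : ℕ) then (if (i : ℕ) < (l : ℕ) then p.1 i else p.2 i) else
        (if (i : ℕ) < (l : ℕ) then p.2 i else p.1 i)) = p.1 i
      by_cases h : (i : ℕ) < (l : ℕ)
      · rw [if_pos h, if_pos h]
      · rw [if_neg h, if_neg h]
    rw [h2, h3]
  rw [h1, mul_sum]
  refine sum_congr rfl fun u _ => ?_
  exact sum_coord l (fun a => G u (Function.update u l a))

/-- sum over the neighbours -/
theorem sum_nb (x : Fin d → Fin k) (g : (Fin d → Fin k) → ℝ) :
    ∑ y, (if (univ.filter fun i => x i ≠ y i).card = 1 then g y else 0) =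
      ∑ l : Fin d, ∑ a : Fin k, (if a ≠ x l then g (Function.update x l a) else 0) := by
  rw [← Fintype.sum_prod_type' (fun (l : Fin d) (a : Fin k) =>
    (if a ≠ x l then g (Function.update x l a) else 0)), ← sum_filter, ← sum_filter]
  symm
  refine sum_bij (fun p _ => Function.update x p.1 p.2) ?_ ?_ ?_ ?_
  · rintro ⟨l, a⟩ hp
    have ha : a ≠ x l := (mem_filter.1 hp).2
    rw [mem_filter]
    refine ⟨mem_univ _, ?_⟩
    rw [card_eq_one]
    refine ⟨l, ?_⟩
    ext i
    rw [mem_filter, mem_singleton]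
    constructor
    · rintro ⟨-, h⟩
      by_contra hne
      exact h (Function.update_of_ne hne a x).symm
    · rintro rfl
      refine ⟨mem_univ _, ?_⟩
      show x i ≠ Function.update x i a i
      rw [Function.update_self]
      exact ha.symm
  · rintro ⟨l, a⟩ hp ⟨l', a'⟩ hp' h
    have ha : a ≠ x l := (mem_filter.1 hp).2
    have ha' : a' ≠ x l' := (mem_filter.1 hp').2
    have h' : Function.update x l a = Function.update x l' a' := h
    have hl : l = l' := by
      by_contra hne
      have h1 := congrFun h' l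
      rw [Function.update_self, Function.update_of_ne hne] at h1
      exact ha h1
    subst hl
    have h1 := congrFun h' l
    rw [Function.update_self, Function.update_self] at h1
    rw [h1]
  · intro y hy
    have h1 := (mem_filter.1 hy).2
    rw [card_eq_one] at h1
    obtain ⟨l, hl⟩ := h1
    have h2 : ∀ i, x i ≠ y i ↔ i = l := by
      intro i
      have := Finset.ext_iff.1 hl i
      rw [mem_filter, mem_singleton] at this
      simpa using this
    refine ⟨(l, y l), ?_, ?_⟩
    · rw [mem_filter]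
      exact ⟨mem_univ _, fun h => (h2 l).2 rfl h.symm⟩
    · show Function.update x l (y l) = y
      funext i
      by_cases hi : i = l
      · subst hi
        rw [Function.update_self]
      · rw [Function.update_of_ne hi]
        by_contra hne
        exact hi ((h2 i).1 hne)
  · intro p _
    rfl

theorem wt (hd : 1 ≤ d) (hk : 2 ≤ k) : Wt (hp d k) := by
  have hd' : (0 : ℝ) < d := by exact_mod_cast hd
  have hk2 : (2 : ℝ) ≤ k := by exact_mod_cast hk
  have hk' : (0 : ℝ) < k := by linarith
  have hk1 : (0 : ℝ) < k - 1 := by linarith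
  refine ⟨fun x y => ?_, fun x y => ?_, fun x => ?_, fun x => ?_⟩
  · unfold hp
    split_ifs
    · positivity
    · exact le_rfl
  · unfold hp
    have : (univ.filter fun i => x i ≠ y i) = (univ.filter fun i => y i ≠ x i) := by
      ext i; simp [ne_comm]
    rw [this]
  · unfold hp
    rw [if_neg]
    simp
  · have h1 : ∑ y, hp d k x y = ∑ y : Fin d → Fin k,
        (if (univ.filter fun i => x i ≠ y i).card = 1 then
        (fun _ => 1 / ((k : ℝ) ^ d * d * (k - 1))) y else 0) := rfl
    rw [h1, sum_nb]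
    have h2 : ∀ l : Fin d, ∑ a : Fin k, (if a ≠ x l then 1 / ((k : ℝ) ^ d * d * (k - 1)) else 0) =
        (k - 1) * (1 / ((k : ℝ) ^ d * d * (k - 1))) := by
      intro l
      rw [← sum_filter, sum_const, nsmul_eq_mul]
      congr 1
      have h3 : (univ.filter fun a : Fin k => a ≠ x l) = univ.erase (x l) := by
        ext a; simp
      rw [h3, card_erase_of_mem (mem_univ _), card_univ, Fintype.card_fin, Nat.cast_sub (by omega)]
      simp
    simp only [h2, sum_const, card_univ, Fintype.card_fin, nsmul_eq_mul, Fintype.card_fun]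
    push_cast
    field_simp

theorem cmpH (hd : 1 ≤ d) (hk : 2 ≤ k) :
    Cmp (hp d k) (fun _ _ => 1 / (Fintype.card (Fin d → Fin k) : ℝ)) (4 * (d : ℝ) ^ 2) := by
  intro m f
  have hd' : (0 : ℝ) < d := by exact_mod_cast hd
  have hk2 : (2 : ℝ) ≤ k := by exact_mod_cast hk
  have hk' : (0 : ℝ) < k := by linarith
  have hk1 : (0 : ℝ) < k - 1 := by linarith
  have hcard : (Fintype.card (Fin d → Fin k) : ℝ) = (k : ℝ) ^ d := by
    rw [Fintype.card_fun, Fintype.card_fin, Fintype.card_fin]
    push_cast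
    rfl
  set E : ℝ := ∑ l : Fin d, ∑ x : Fin d → Fin k, ∑ a : Fin k, WW f x (Function.update x l a)
    with hE
  have hE0 : 0 ≤ E := sum_nonneg fun _ _ => sum_nonneg fun _ _ => sum_nonneg fun _ _ =>
    WW_nonneg f _ _
  have hR : ∑ x, ∑ y, hp d k x y * ∑ ξ : (Fin d → Fin k) → Fin m, (f ξ - f (ξ ∘ swap x y)) ^ 2 =
      E / ((k : ℝ) ^ d * d * (k - 1)) := by
    have h1 : ∀ x : Fin d → Fin k, ∑ y, hp d k x y *
        ∑ ξ : (Fin d → Fin k) → Fin m, (f ξ - f (ξ ∘ swap x y)) ^ 2 =
        (∑ l : Fin d, ∑ a : Fin k, WW f x (Function.update x l a)) /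
          ((k : ℝ) ^ d * d * (k - 1)) := by
      intro x
      have h2 : ∀ y, hp d k x y * ∑ ξ : (Fin d → Fin k) → Fin m, (f ξ - f (ξ ∘ swap x y)) ^ 2 =
          (if (univ.filter fun i => x i ≠ y i).card = 1 then WW f x y else 0) /
            ((k : ℝ) ^ d * d * (k - 1)) := by
        intro y
        unfold hp WW
        split_ifs
        · ring
        · rw [zero_mul, zero_div]
      simp only [h2]
      rw [← sum_div, sum_nb]
      congr 1
      refine sum_congr rfl fun l _ => sum_congr rfl fun a _ => ?_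
      by_cases ha : a = x l
      · rw [if_neg (by simpa using ha), ha, Function.update_eq_self, WW_self]
      · rw [if_pos ha]
    simp only [h1]
    rw [← sum_div, sum_comm]
  have hL : ∑ y, ∑ z, (1 / (Fintype.card (Fin d → Fin k) : ℝ)) *
      ∑ ξ : (Fin d → Fin k) → Fin m, (f ξ - f (ξ ∘ swap y z)) ^ 2 ≤
      (1 / (k : ℝ) ^ d) * (4 * d * ((k : ℝ) ^ (d - 1) * E)) := by
    rw [hcard]
    calc ∑ y, ∑ z, (1 / (k : ℝ) ^ d) *
          ∑ ξ : (Fin d → Fin k) → Fin m, (f ξ - f (ξ ∘ swap y z)) ^ 2
        = (1 / (k : ℝ) ^ d) * ∑ y, ∑ z, WW f y z := by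
          rw [mul_sum]
          refine sum_congr rfl fun y _ => ?_
          rw [mul_sum]
          rfl
      _ ≤ (1 / (k : ℝ) ^ d) * ∑ y : Fin d → Fin k, ∑ z : Fin d → Fin k, (4 * d *
            ∑ l : Fin d, WW f (pth y z l) (Function.update (pth y z l) l (z l))) := by
          apply mul_le_mul_of_nonneg_left _ (by positivity)
          exact sum_le_sum fun y _ => sum_le_sum fun z _ => WW_path f y z
      _ = (1 / (k : ℝ) ^ d) * (4 * d * ∑ l : Fin d, ∑ y : Fin d → Fin k, ∑ z : Fin d → Fin k,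
            WW f (pth y z l) (Function.update (pth y z l) l (z l))) := by
          congr 1
          simp only [← mul_sum]
          congr 1
          exact (sum_congr rfl fun y _ => sum_comm).trans sum_comm
      _ = _ := by
          congr 2
          rw [hE, mul_sum]
          refine sum_congr rfl fun l _ => ?_
          exact sum_pth l (fun u v => WW f u v)
  rw [hR, hcard]
  rw [div_le_iff₀ (by positivity)]
  rw [hcard] at hL
  refine hL.trans ?_
  have hkd : (k : ℝ) ^ d = k * (k : ℝ) ^ (d - 1) := by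
    rw [← pow_succ']
    congr 1
    omega
  have hkp : (0 : ℝ) < (k : ℝ) ^ (d - 1) := by positivity
  rw [hkd]
  have e1 : 1 / (k * (k : ℝ) ^ (d - 1)) * (4 * d * ((k : ℝ) ^ (d - 1) * E)) = 4 * d * E / k := by
    field_simp
  have e2 : 4 * (d : ℝ) ^ 2 * (E / (k * (k : ℝ) ^ (d - 1) * d * (k - 1))) *
      (k * (k : ℝ) ^ (d - 1)) = 4 * d * E / (k - 1) := by
    field_simp
  rw [e1, e2]
  apply div_le_div_of_nonneg_left (by positivity) hk1
  linarith

end hamming

theorem hcmp : S_HCMP := fun _ _ hd hk => ⟨wt hd hk, cmpH hd hk⟩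

end Pool.Agent.Y945.RS
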